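import Mathlib
import Pool.Agent.Helper38.TW.CountAll
import Pool.Agent.Helper38.TM.Asm
import Pool.Agent.Helper66.TW.Final
import Pool.Agent.Helper32.TW.Split3

set_option autoImplicit false

namespace Pool.Agent.Results.MP_d88658_nt.AlmostAllTwists

open Polynomial

/-- Almost all quadratic twists of `f` have no integral point with `y ≠ 0`, and satisfy Q1 with
`C₁ = 1`, `C₂ = 0`; if `f` has three different rational roots, the mean number of integral points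
with `y ≠ 0` of the twists tends to `0`. -/
private theorem two (f : ℤ[X]) (hf : (f.map (Int.castRingHom ℚ)).Separable)
    (hd : 3 ≤ f.natDegree) :
    ∃ K c : ℝ, 0 < K ∧ 0 < c ∧ ∀ X : ℕ, 2 ≤ X →
      (({D : ℤ | D ≠ 0 ∧ |D| ≤ X ∧ ∃ x y : ℤ, y ^ 2 = (C D * f).eval x ∧
        (y ≠ 0 ∨ ∀ i, |(C D * f).coeff i| < max |x| 1)}.ncard : ℕ) : ℝ) ≤
        K * X / (Real.log X) ^ c ∧
      (3 ≤ (f.map (Int.castRingHom ℚ)).roots.toFinset.card →
        {P : ℤ × ℤ × ℤ | P.1 ≠ 0 ∧ |P.1| ≤ X ∧ P.2.2 ≠ 0 ∧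
          P.2.2 ^ 2 = (C P.1 * f).eval P.2.1}.Finite ∧
        (({P : ℤ × ℤ × ℤ | P.1 ≠ 0 ∧ |P.1| ≤ X ∧ P.2.2 ≠ 0 ∧
          P.2.2 ^ 2 = (C P.1 * f).eval P.2.1}.ncard : ℕ) : ℝ) ≤ K * X / (Real.log X) ^ c) := by
  have hf0 : f ≠ 0 := by
    rintro rfl
    simp at hd
  have hA : ∃ K c : ℝ, 0 < K ∧ 0 < c ∧ ∀ X : ℕ, 2 ≤ X →
      (({D : ℤ | D ≠ 0 ∧ |D| ≤ X ∧ ∃ x y : ℤ, y ^ 2 = (C D * f).eval x ∧
        (y ≠ 0 ∨ ∀ i, |(C D * f).coeff i| < max |x| 1)}.ncard : ℕ) : ℝ) ≤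
        K * X / (Real.log X) ^ c := by
    obtain ⟨K, c, hK, hc, h⟩ :=
      Pool.Agent.Helper66.TW.count_all_f f hf.squarefree hd
    refine ⟨K, c, hK, hc, fun X hX => le_trans ?_ (h X hX)⟩
    have hfin : {D : ℤ | D ≠ 0 ∧ |D| ≤ X ∧ ∃ x y : ℤ, y ≠ 0 ∧ y ^ 2 = D * f.eval x}.Finite := by
      refine (Set.finite_Icc (-(X : ℤ)) X).subset ?_
      rintro D ⟨_, h2, _⟩
      exact Set.mem_Icc.2 (abs_le.1 h2)
    refine Nat.cast_le.2 (Set.ncard_le_ncard ?_ hfin)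
    rintro D ⟨hD, hDX, x, y, hxy, hor⟩
    refine ⟨hD, hDX, x, y, ?_, ?_⟩
    · rcases hor with h1 | h1
      · exact h1
      · intro hy
        rw [hy, eval_mul, eval_C] at hxy
        have h0 : f.eval x = 0 := by
          have h2 : D * f.eval x = 0 := by
            rw [← hxy]
            ring
          rcases mul_eq_zero.1 h2 with h3 | h3
          · exact absurd h3 hD
          · exact h3
        obtain ⟨i, hi, hxi⟩ := Pool.Agent.Helper38.TW.root_le f hf0 x h0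
        have h2 := h1 i
        rw [coeff_C_mul, abs_mul] at h2
        have hD1 : 1 ≤ |D| := Int.one_le_abs hD
        have hi1 : 1 ≤ |f.coeff i| := Int.one_le_abs hi
        have h3 : |f.coeff i| ≤ |D| * |f.coeff i| := by nlinarith
        have h4 : max |x| 1 ≤ |D| * |f.coeff i| := max_le (hxi.trans h3) (hi1.trans h3)
        exact absurd h2 (not_lt.2 h4)
    · rw [hxy, eval_mul, eval_C]
  by_cases h3 : 3 ≤ (f.map (Int.castRingHom ℚ)).roots.toFinset.card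
  · obtain ⟨K1, c1, hK1, hc1, h1⟩ := hA
    obtain ⟨K2, c2, hK2, hc2, h2⟩ := Pool.Agent.Helper38.TM.moment f hf.squarefree h3
    have hl : 0 < Real.log 2 := Real.log_pos (by norm_num)
    have hp1 : 0 < (Real.log 2) ^ (min c1 c2 - c1) := Real.rpow_pos_of_pos hl _
    have hp2 : 0 < (Real.log 2) ^ (min c1 c2 - c2) := Real.rpow_pos_of_pos hl _
    have hset : ∀ X : ℕ, {P : ℤ × ℤ × ℤ | P.1 ≠ 0 ∧ |P.1| ≤ X ∧ P.2.2 ≠ 0 ∧
        P.2.2 ^ 2 = (C P.1 * f).eval P.2.1} = {P : ℤ × ℤ × ℤ | P.1 ≠ 0 ∧ |P.1| ≤ X ∧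
        P.2.2 ≠ 0 ∧ P.2.2 ^ 2 = P.1 * f.eval P.2.1} := by
      intro X
      ext P
      simp only [Set.mem_ofPred_eq, eval_mul, eval_C]
    refine ⟨K1 * (Real.log 2) ^ (min c1 c2 - c1) + K2 * (Real.log 2) ^ (min c1 c2 - c2),
      min c1 c2, by positivity, lt_min hc1 hc2, fun X hX => ?_⟩
    have hw1 := Pool.Agent.Helper32.TW.weaken hK1 (min_le_left c1 c2) X hX
    have hw2 := Pool.Agent.Helper32.TW.weaken hK2 (min_le_right c1 c2) X hX
    have hX0 : (0 : ℝ) ≤ X := Nat.cast_nonneg X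
    have hL : 0 ≤ (Real.log X) ^ (min c1 c2) := Real.rpow_nonneg (Real.log_natCast_nonneg X) _
    have e : (K1 * (Real.log 2) ^ (min c1 c2 - c1) + K2 * (Real.log 2) ^ (min c1 c2 - c2)) * X /
        (Real.log X) ^ (min c1 c2) =
        (K1 * (Real.log 2) ^ (min c1 c2 - c1)) * X / (Real.log X) ^ (min c1 c2) +
        (K2 * (Real.log 2) ^ (min c1 c2 - c2)) * X / (Real.log X) ^ (min c1 c2) := by
      rw [add_mul, add_div]
    have n1 : 0 ≤ (K1 * (Real.log 2) ^ (min c1 c2 - c1)) * X / (Real.log X) ^ (min c1 c2) := by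
      positivity
    have n2 : 0 ≤ (K2 * (Real.log 2) ^ (min c1 c2 - c2)) * X / (Real.log X) ^ (min c1 c2) := by
      positivity
    rw [e, hset X]
    refine ⟨?_, fun _ => ⟨(h2 X hX).1, ?_⟩⟩
    · exact (h1 X hX).trans (hw1.trans (le_add_of_nonneg_right n2))
    · exact (h2 X hX).2.trans (hw2.trans (le_add_of_nonneg_left n1))
  · obtain ⟨K1, c1, hK1, hc1, h1⟩ := hA
    exact ⟨K1, c1, hK1, hc1, fun X hX => ⟨h1 X hX, fun h => absurd h h3⟩⟩


/-- **The integral points of the quadratic twists of `f`.** If `f` has at least three different rational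
roots, all twists `y ^ 2 = D f(x)` with `|D| ≤ X` together have at most `K X / (log X) ^ c` integral points
with `y ≠ 0` or `max |x| 1` larger than all coefficients of `D f`; for every other `f` the same holds if
one point of each twist is counted. -/
theorem result (f : ℤ[X]) (hf : (f.map (Int.castRingHom ℚ)).Separable)
    (hd : 3 ≤ f.natDegree) :
    ∃ K c : ℝ, 0 < K ∧ 0 < c ∧ ∀ X : ℕ, 2 ≤ X → ∀ S : Set (ℤ × ℤ × ℤ),
      (∀ P ∈ S, P.1 ≠ 0 ∧ |P.1| ≤ X ∧ P.2.2 ^ 2 = (C P.1 * f).eval P.2.1 ∧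
        (P.2.2 ≠ 0 ∨ ∀ i, |(C P.1 * f).coeff i| < max |P.2.1| 1)) →
      (3 ≤ (f.map (Int.castRingHom ℚ)).roots.toFinset.card ∨ Set.InjOn Prod.fst S) →
      S.Finite ∧ ((S.ncard : ℕ) : ℝ) ≤ K * X / (Real.log X) ^ c := by
  have hf0 : f ≠ 0 := by
    rintro rfl
    simp at hd
  obtain ⟨K, c, hK, hc, h⟩ := two f hf hd
  refine ⟨K, c, hK, hc, fun X hX S hS hor => ?_⟩
  obtain ⟨h1, h2⟩ := h X hX
  rcases hor with h3 | hinj
  · obtain ⟨hfin, hcard⟩ := h2 h3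
    have hsub : S ⊆ {P : ℤ × ℤ × ℤ | P.1 ≠ 0 ∧ |P.1| ≤ X ∧ P.2.2 ≠ 0 ∧
          P.2.2 ^ 2 = (C P.1 * f).eval P.2.1} := by
      rintro ⟨D, x, y⟩ hP
      obtain ⟨hD, hDX, hxy, hor⟩ := hS _ hP
      refine ⟨hD, hDX, ?_, hxy⟩
      rcases hor with h1 | h1
      · exact h1
      · intro hy
        simp only at hy hxy h1 hD
        rw [hy, eval_mul, eval_C] at hxy
        have h0 : f.eval x = 0 := by
          have h2 : D * f.eval x = 0 := by
            rw [← hxy]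
            ring
          rcases mul_eq_zero.1 h2 with h3 | h3
          · exact absurd h3 hD
          · exact h3
        obtain ⟨i, hi, hxi⟩ := Pool.Agent.Helper38.TW.root_le f hf0 x h0
        have h2 := h1 i
        rw [coeff_C_mul, abs_mul] at h2
        have hD1 : 1 ≤ |D| := Int.one_le_abs hD
        have hi1 : 1 ≤ |f.coeff i| := Int.one_le_abs hi
        have h3 : |f.coeff i| ≤ |D| * |f.coeff i| := by nlinarith
        have h4 : max |x| 1 ≤ |D| * |f.coeff i| := max_le (hxi.trans h3) (hi1.trans h3)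
        exact absurd h2 (not_lt.2 h4)
    refine ⟨hfin.subset hsub, le_trans ?_ hcard⟩
    exact Nat.cast_le.2 (Set.ncard_le_ncard hsub hfin)
  · obtain ⟨T, hT⟩ : ∃ T : Set ℤ, T = {D : ℤ | D ≠ 0 ∧ |D| ≤ X ∧ ∃ x y : ℤ,
        y ^ 2 = (C D * f).eval x ∧ (y ≠ 0 ∨ ∀ i, |(C D * f).coeff i| < max |x| 1)} := ⟨_, rfl⟩
    have hTfin : T.Finite := by
      rw [hT]
      refine (Set.finite_Icc (-(X : ℤ)) X).subset ?_
      rintro D ⟨_, h2, _⟩
      exact Set.mem_Icc.2 (abs_le.1 h2)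
    have hsub : Prod.fst '' S ⊆ T := by
      rw [hT]
      rintro D ⟨⟨D', x, y⟩, hP, rfl⟩
      obtain ⟨hD, hDX, hxy, hor⟩ := hS _ hP
      exact ⟨hD, hDX, x, y, hxy, hor⟩
    refine ⟨Set.Finite.of_finite_image (hTfin.subset hsub) hinj, le_trans ?_ h1⟩
    rw [← hT, ← Set.InjOn.ncard_image hinj]
    exact Nat.cast_le.2 (Set.ncard_le_ncard hsub hTfin)

end Pool.Agent.Results.MP_d88658_nt.AlmostAllTwists
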