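import Mathlib
import Pool.Agent.Helper32.DZ.RateU

set_option autoImplicit false

namespace Pool.Agent.Results.MP_d88658_nt.Density

/-- For every degree `d ≥ 2` at most `C B^K H^(d+1) / (log H)^c` of the integer polynomials `f = a_d x^d + ... + a_0`,
`|a_i| ≤ H`, take a value `f(x) = k y^2` with an integer `k ≠ 0`, `|k| ≤ B`, and rational `x`, `y`, the denominator of `x`
being `t w^2` with `1 ≤ t ≤ B`. With `B = 1`: integral points on `y^2 = f(x)`. -/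
theorem result (d : ℕ) (hd : 2 ≤ d) :
    ∃ (C c : ℝ) (K : ℕ), 0 < C ∧ 0 < c ∧ ∀ B H : ℕ, 2 ≤ H →
      (({a : Fin (d + 1) → ℤ | (∀ i, |a i| ≤ (H : ℤ)) ∧
        ∃ (k : ℤ) (x y : ℚ) (t w : ℕ), k ≠ 0 ∧ |k| ≤ (B : ℤ) ∧ 1 ≤ t ∧ t ≤ B ∧
          x.den = t * w ^ 2 ∧ ∑ i, (a i : ℚ) * x ^ (i : ℕ) = (k : ℚ) * y ^ 2}.ncard : ℕ) : ℝ) ≤
        C * (B : ℝ) ^ K * (H : ℝ) ^ (d + 1) / (Real.log H) ^ c := by
  obtain ⟨C, c, K, hC, hc, h⟩ := Pool.Agent.Helper32.DZ.density_rate_u d hd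
  refine ⟨C * 3 ^ (d + 1), c, K, by positivity, hc, fun B H hH => ?_⟩
  have h1 := h B H hH
  have hHr : (2 : ℝ) ≤ H := by exact_mod_cast hH
  have hL : 0 < Real.log H := Real.log_pos (by linarith)
  have hset : {a : Fin (d + 1) → ℤ | (∀ i, |a i| ≤ (H : ℤ)) ∧
        ∃ (k : ℤ) (x y : ℚ) (t w : ℕ), k ≠ 0 ∧ |k| ≤ (B : ℤ) ∧ 1 ≤ t ∧ t ≤ B ∧
          x.den = t * w ^ 2 ∧ ∑ i, (a i : ℚ) * x ^ (i : ℕ) = (k : ℚ) * y ^ 2} =
      {a : Fin (d + 1) → ℤ | (∀ i, |a i| ≤ (H : ℤ)) ∧ Pool.Agent.Helper32.DZ.HasU B a} := by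
    ext a
    constructor
    · rintro ⟨h1, k, x, y, t, w, hk, hkB, ht, htB, hx, hy⟩
      exact ⟨h1, k, x, y, t, w, hk, hkB, ht, htB, hx, hy.symm⟩
    · rintro ⟨h1, k, x, y, t, w, hk, hkB, ht, htB, hx, hy⟩
      exact ⟨h1, k, x, y, t, w, hk, hkB, ht, htB, hx, hy.symm⟩
  rw [hset]
  refine h1.trans ?_
  rw [Real.rpow_neg hL.le, ← div_eq_mul_inv]
  refine div_le_div_of_nonneg_right ?_ (by positivity)
  have h2 : (2 * (H : ℝ) + 1) ^ (d + 1) ≤ (3 * (H : ℝ)) ^ (d + 1) :=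
    pow_le_pow_left₀ (by positivity) (by linarith) _
  calc C * (B : ℝ) ^ K * (2 * (H : ℝ) + 1) ^ (d + 1)
      ≤ C * (B : ℝ) ^ K * (3 * (H : ℝ)) ^ (d + 1) := mul_le_mul_of_nonneg_left h2 (by positivity)
    _ = C * 3 ^ (d + 1) * (B : ℝ) ^ K * (H : ℝ) ^ (d + 1) := by rw [mul_pow]; ring

end Pool.Agent.Results.MP_d88658_nt.Density
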