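import Pool.Agent.Helper12.CV.Main

set_option autoImplicit false

open Polynomial Pool.Agent.Helper12.CV

namespace Pool.Agent.Results.MP_d88658_nt.SelmerThinCurves

/-- For every odd `d ≥ 3` the bound of Q1 holds, with constants depending only on `d`, for all integral
points of all curves `y² = f(x)` such that the integral Selmer classes of `f` are thin, and this class
of curves contains the explicit family `OddNarrow`. -/
theorem result : ∀ d : ℕ, 3 ≤ d → Odd d →
    (∃ C₁ C₂ : ℝ, ∀ f : Polynomial ℤ, f.natDegree = d →
      (f.map (Int.castRingHom ℚ)).Separable → SelmerThin f →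
      ∀ x y : ℤ, y ^ 2 = f.eval x →
        Real.log (max |(x : ℝ)| 1) ≤
          C₁ * Real.log (max ((f.support.sup (fun i => (f.coeff i).natAbs) : ℕ) : ℝ) 1) + C₂) ∧
    ∀ f : Polynomial ℤ, f.natDegree = d → (f.map (Int.castRingHom ℚ)).Separable →
      OddNarrow f → SelmerThin f := by
  intro d hd hodd
  exact ⟨curves d hd hodd, fun f hf hsep hN =>
    selmerThin_of_oddNarrow f (by omega) hsep hN⟩

end Pool.Agent.Results.MP_d88658_nt.SelmerThinCurves
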